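import Pool.Agent.Helper10.TW.Main2

/-! For every odd `m ≥ 3` and every nonzero rational `a` for which the Jacobian of `y² = x^m + a`
has positive rank (the class of `1` is admissible) there are infinitely many admissible classes
modulo `2m`-th powers. -/

namespace Pool.Agent.Results.MP_241ea1_nt.PositiveRank

open MP241ea1 Polynomial

theorem result : ∀ m : ℕ, Odd m → 3 ≤ m → ∀ a : ℚ, a ≠ 0 → PosRank (X ^ m + C a) →
    {c : ℚˣ ⧸ (powMonoidHom (2 * m) : ℚˣ →* ℚˣ).range |
      ∃ d : ℚˣ, QuotientGroup.mk d = c ∧ Admissible m a d}.Infinite :=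
  fun _ hm hm3 _ ha hr => infinite_of_posRank hm hm3 ha hr

end Pool.Agent.Results.MP_241ea1_nt.PositiveRank
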