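import Pool.Agent.Helper10.TW.Main

/-! For every odd `m` divisible by `3` and every nonzero rational `a` there are infinitely many
admissible classes modulo `2m`-th powers. -/

namespace Pool.Agent.Results.MP_241ea1_nt.ThreeDividesM

open MP241ea1

theorem result : ∀ m : ℕ, Odd m → 3 ∣ m → ∀ a : ℚ, a ≠ 0 →
    {c : ℚˣ ⧸ (powMonoidHom (2 * m) : ℚˣ →* ℚˣ).range |
      ∃ d : ℚˣ, QuotientGroup.mk d = c ∧ Admissible m a d}.Infinite :=
  fun _ hm h3 _ ha => infinite_admissible_classes hm h3 ha

end Pool.Agent.Results.MP_241ea1_nt.ThreeDividesM
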